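import Pool.Agent.Helper54.UN.St

/-!
# UN module WLA: the labels along the walls `0, 1, 2, 3`
-/

set_option autoImplicit false

open Set Filter Topology

noncomputable section

namespace Pool.Agent.Helper51.UNC

open Pool.Agent.Helper71.UN Pool.Agent.Helper54.UN

private theorem pp {P Q A B : ℂ} {t : ℝ} (h0 : 0 < t) (h1 : t < 1) (hA : 0 < lf P Q A)
    (hB : 0 < lf P Q B) : ∀ᶠ x in 𝓝 (A + t * (B - A)), 0 < lf P Q x := by
  refine evp (continuous_lf P Q) ?_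
  rw [lf_comb]
  have := mul_pos (sub_pos.2 h1) hA
  have := mul_pos h0 hB
  linarith

private theorem p0 {P Q A B : ℂ} {t : ℝ} (h1 : t < 1) (hA : 0 < lf P Q A)
    (hB : lf P Q B = 0) : ∀ᶠ x in 𝓝 (A + t * (B - A)), 0 < lf P Q x := by
  refine evp (continuous_lf P Q) ?_
  rw [lf_comb, hB]
  have := mul_pos (sub_pos.2 h1) hA
  linarith

private theorem zp {P Q A B : ℂ} {t : ℝ} (h0 : 0 < t) (hA : lf P Q A = 0)
    (hB : 0 < lf P Q B) : ∀ᶠ x in 𝓝 (A + t * (B - A)), 0 < lf P Q x := by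
  refine evp (continuous_lf P Q) ?_
  rw [lf_comb, hA]
  have := mul_pos h0 hB
  linarith

private theorem nn {P Q A B : ℂ} {t : ℝ} (h0 : 0 < t) (h1 : t < 1) (hA : lf P Q A < 0)
    (hB : lf P Q B < 0) : ∀ᶠ x in 𝓝 (A + t * (B - A)), lf P Q x < 0 := by
  refine evn (continuous_lf P Q) ?_
  rw [lf_comb]
  have := mul_neg_of_pos_of_neg (sub_pos.2 h1) hA
  have := mul_neg_of_pos_of_neg h0 hB
  linarith

private theorem n0 {P Q A B : ℂ} {t : ℝ} (h1 : t < 1) (hA : lf P Q A < 0)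
    (hB : lf P Q B = 0) : ∀ᶠ x in 𝓝 (A + t * (B - A)), lf P Q x < 0 := by
  refine evn (continuous_lf P Q) ?_
  rw [lf_comb, hB]
  have := mul_neg_of_pos_of_neg (sub_pos.2 h1) hA
  linarith

private theorem zn {P Q A B : ℂ} {t : ℝ} (h0 : 0 < t) (hA : lf P Q A = 0)
    (hB : lf P Q B < 0) : ∀ᶠ x in 𝓝 (A + t * (B - A)), lf P Q x < 0 := by
  refine evn (continuous_lf P Q) ?_
  rw [lf_comb, hA]
  have := mul_neg_of_pos_of_neg h0 hB
  linarith

private theorem ee {A B : ℂ} {t : ℝ} (h0 : 0 < t) (h1 : t < 1) (hA : 0 < el A)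
    (hB : 0 < el B) : ∀ᶠ x in 𝓝 (A + t * (B - A)), 0 < el x := by
  refine evp continuous_el ?_
  rw [el_comb]
  have := mul_pos (sub_pos.2 h1) hA
  have := mul_pos h0 hB
  linarith

private theorem opp (P Q x : ℂ) : lf Q P x = - dt (Q - P) (x - P) := by
  simp only [lf_eq, dt_eq, Complex.sub_re, Complex.sub_im]
  ring

theorem hWLA (hU : StU) : StWLA := by
  intro k l a b τ g hG
  refine ⟨?_, ?_, ?_, ?_⟩
  · -- wall 0
    intro t h0 h1
    filter_upwards [n0 h1 hG.f1t (lf_start a om), pp h0 h1 hG.f4t hG.f4a, pp h0 h1 hG.f2t hG.f2a,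
      pp h0 h1 hG.f6t hG.f6a, pp h0 h1 hG.f7t hG.f7a, p0 h1 hG.gdt (lf_start a b),
      zn h0 (lf_start τ b) hG.g3a, ee h0 h1 hG.et hG.ea] with x c1 c4 c2 c6 c7 cd c3 ce
    rw [hU k l a b τ g hG x ce]
    unfold lamU
    have e1 : ¬ (0 < lf 1 a x ∧ 0 < lf a om x ∧ 0 < lf om (-1) x ∧ 0 < lf (-om) 1 x) :=
      fun h => absurd h.2.1 (not_lt.2 c1.le)
    have e2 : ¬ (lf 1 b x < 0 ∨ lf b om x < 0 ∨ lf om (-1) x < 0 ∨ lf (-om) 1 x < 0) := by
      rintro (h | h | h | h) <;> linarith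
    rw [if_neg e1, if_neg e2]
    refine ⟨fun h => ?_, fun h => ?_⟩
    · rw [if_pos (Or.inr ⟨h, c3⟩)]
    · rw [if_neg]
      rintro (h' | h')
      · linarith
      · exact absurd h'.1 (not_lt.2 (le_of_lt h))
  · -- wall 1
    intro t h0 h1
    filter_upwards [p0 h1 hG.f5o (lf_end 1 a), zp h0 (lf_start om (-1)) hG.f6a,
      pp h0 h1 hG.f7o hG.f7a, pp h0 h1 hG.f4o hG.f4a, zp h0 (lf_end b om) hG.f2a,
      p0 h1 hG.gdo (lf_start a b), n0 h1 hG.g0o (lf_end τ a), ee h0 h1 hG.eo hG.ea]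
      with x c5 c6 c7 c4 c2 cd c0 ce
    rw [hU k l a b τ g hG x ce]
    unfold lamU
    have hf := opp om a x
    refine ⟨fun h => ?_, fun h => ?_⟩
    · have c1 : lf a om x < 0 := by rw [hf]; linarith
      rw [if_neg (fun h => absurd h.2.1 (not_lt.2 c1.le)), if_neg, if_neg]
      · rintro (h' | h')
        · linarith
        · linarith [h'.1]
      · rintro (h | h | h | h) <;> linarith
    · have c1 : 0 < lf a om x := by rw [hf]; linarith
      rw [if_pos ⟨c5, c1, c6, c7⟩]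
  · -- wall 2
    intro t h0 h1
    filter_upwards [zn h0 (lf_end a om) hG.f1b, p0 h1 hG.f4o (lf_end 1 b),
      zp h0 (lf_start om (-1)) hG.f6b, pp h0 h1 hG.f7o hG.f7b, p0 h1 hG.gdo (lf_end a b),
      p0 h1 hG.g3o (lf_end τ b), ee h0 h1 hG.eo hG.eb] with x c1 c4 c6 c7 cd c3 ce
    rw [hU k l a b τ g hG x ce]
    unfold lamU
    have hf := opp om b x
    rw [if_neg (fun h => absurd h.2.1 (not_lt.2 c1.le))]
    refine ⟨fun h => ?_, fun h => ?_⟩
    · have c2 : lf b om x < 0 := by rw [hf]; linarith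
      rw [if_pos (Or.inr (Or.inl c2))]
    · have c2 : 0 < lf b om x := by rw [hf]; linarith
      rw [if_neg, if_neg]
      · rintro (h' | h')
        · linarith
        · linarith [h'.2]
      · rintro (h | h | h | h) <;> linarith
  · -- wall 3
    intro t h0 h1
    filter_upwards [nn h0 h1 hG.f1t hG.f1b, p0 h1 hG.f4t (lf_end 1 b), p0 h1 hG.f2t (lf_start b om),
      pp h0 h1 hG.f6t hG.f6b, pp h0 h1 hG.f7t hG.f7b, p0 h1 hG.gdt (lf_end a b),
      zp h0 (lf_start τ a) hG.g0b, ee h0 h1 hG.et hG.eb] with x c1 c4 c2 c6 c7 cd c0 ce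
    rw [hU k l a b τ g hG x ce]
    unfold lamU
    have e2 : ¬ (lf 1 b x < 0 ∨ lf b om x < 0 ∨ lf om (-1) x < 0 ∨ lf (-om) 1 x < 0) := by
      rintro (h | h | h | h) <;> linarith
    rw [if_neg (fun h => absurd h.2.1 (not_lt.2 c1.le)), if_neg e2]
    refine ⟨fun h => ?_, fun h => ?_⟩
    · rw [if_neg]
      rintro (h' | h')
      · linarith
      · exact absurd h'.2 (not_lt.2 (le_of_lt h))
    · rw [if_pos (Or.inr ⟨c0, h⟩)]

end Pool.Agent.Helper51.UNC
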